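import Mathlib
import Pool.Agent.Lib.helper24.Dicot
import Pool.Agent.Lib.helper24.MisereTab

set_option autoImplicit false

namespace Pool.Agent.Results.MP_541980_co.InKernel

open Pool.Agent.Lib.helper24.Dicot Pool.Agent.Lib.helper24.Dicot.PG
open Pool.Agent.Lib.helper24.MisereTab

/-- Component types: `*`, `a = {0, * | 0}`, `G = {a + a | a}` and the conjugates of `a`, `G`. -/
def M : Bool → List (V × V)
  | true => [((1, 0, 0, 0, 0), (0, 0, 0, 0, 0)), ((0, 1, 0, 0, 0), (0, 0, 0, 0, 0)),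
      ((0, 1, 0, 0, 0), (1, 0, 0, 0, 0)), ((0, 0, 1, 0, 0), (0, 2, 0, 0, 0)),
      ((0, 0, 0, 1, 0), (0, 0, 0, 0, 0)), ((0, 0, 0, 0, 1), (0, 0, 0, 1, 0))]
  | false => [((1, 0, 0, 0, 0), (0, 0, 0, 0, 0)), ((0, 1, 0, 0, 0), (0, 0, 0, 0, 0)),
      ((0, 0, 1, 0, 0), (0, 1, 0, 0, 0)), ((0, 0, 0, 1, 0), (0, 0, 0, 0, 0)),
      ((0, 0, 0, 1, 0), (1, 0, 0, 0, 0)), ((0, 0, 0, 0, 1), (0, 0, 0, 2, 0))]

def op (s : Bool) : V → V → Prop := opt (M s)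

theorem hM : ∀ s, ∀ m ∈ M s, sz m.1 = 1 ∧ w m.2 < w m.1 := by decide

theorem hw (s : Bool) (c c' : V) (h : op s c c') : w c' < w c := by
  obtain ⟨m, hm, h, rfl⟩ := h
  have := (hM s m hm).2
  simp only [Prod.le_def, Prod.fst_add, Prod.snd_add, Prod.fst_sub, Prod.snd_sub, w] at *
  omega

theorem hs (s : Bool) (c d z : V) :
    op s (c + d) z ↔ (∃ c', op s c c' ∧ z = c' + d) ∨ ∃ d', op s d d' ∧ z = c + d' :=
  opt_add _ (hM s) c d z

theorem opL (j k n : ℕ) (z : V) : op true (j, k, n, 0, 0) z ↔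
    (1 ≤ j ∧ z = (j - 1, k, n, 0, 0)) ∨ (1 ≤ k ∧ z = (j, k - 1, n, 0, 0)) ∨
    (1 ≤ k ∧ z = (j + 1, k - 1, n, 0, 0)) ∨ (1 ≤ n ∧ z = (j, k + 2, n - 1, 0, 0)) := by
  simp [op, opt, M]

theorem opR (j k n : ℕ) (z : V) : op false (j, k, n, 0, 0) z ↔
    (1 ≤ j ∧ z = (j - 1, k, n, 0, 0)) ∨ (1 ≤ k ∧ z = (j, k - 1, n, 0, 0)) ∨
    (1 ≤ n ∧ z = (j, k + 1, n - 1, 0, 0)) := by
  simp [op, opt, M]

theorem no_op (s : Bool) (c : V) : (∀ c', ¬ op s c c') ↔ c = 0 := by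
  obtain ⟨j, k, n, d, e⟩ := c
  cases s <;> simp [op, opt, M, not_or, forall_and]

def D (c : V) : Prop := c.2.2.2 = (0, 0)

theorem D0 (j k n : ℕ) : D (j, k, n, 0, 0) := rfl

theorem hD (s : Bool) (c c' : V) (h : D c) (h' : op s c c') : D c' := by
  obtain ⟨j, k, n, _⟩ := c
  obtain rfl := h
  cases s
  · rcases (opR _ _ _ _).1 h' with ⟨-, rfl⟩ | ⟨-, rfl⟩ | ⟨-, rfl⟩ <;> rfl
  · rcases (opL _ _ _ _).1 h' with ⟨-, rfl⟩ | ⟨-, rfl⟩ | ⟨-, rfl⟩ | ⟨-, rfl⟩ <;> rfl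

def o (b : Bool) (c : V) (s : Bool) : Prop :=
  (2 ≤ c.2.1 + 2 * c.2.2.1 ∧ s = true) ∨
    (c.2.1 + 2 * c.2.2.1 = 1 ∧ (s = true ∨ (c.1 % 2 = 1 ↔ b = true))) ∨
    (c.2.1 + 2 * c.2.2.1 = 0 ∧ (c.1 % 2 = 1 ↔ b = false))

theorem ho (b : Bool) (c : V) (s : Bool) (h : D c) : o b c s ↔
    ((∀ c', ¬ op s c c') ∧ b = true) ∨ ∃ c', op s c c' ∧ ¬ o b c' (!s) := by
  rw [no_op]
  obtain ⟨j, k, n, _⟩ := c
  obtain rfl := h
  cases s <;> cases b <;>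
  · simp only [opL, opR, or_and_right, exists_or, and_assoc, exists_and_left, exists_eq_left]
    simp only [o, Prod.ext_iff, Prod.fst_zero, Prod.snd_zero, Bool.not_true, Bool.not_false,
      Bool.false_eq_true, Bool.true_eq_false, iff_true, iff_false, and_true, and_false, true_or,
      false_or]
    omega

theorem win_iff (b : Bool) (G : PG) (c : V) (s : Bool) (h : D c) (hG : Rep op G c) :
    Win b G s ↔ o b c s := rep_out b D hD (o b) (ho b) G c s h hG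

theorem rep_zero : Rep op zero 0 := fun s =>
  ⟨fun i => i.elim0, fun c' h => absurd h ((no_op s 0).2 rfl c')⟩

theorem rep_star : Rep op star (1, 0, 0, 0, 0) := fun s => by
  have : ∀ z, op s (1, 0, 0, 0, 0) z ↔ z = 0 := fun z => by
    cases s
    · rw [opR]; simp [Prod.ext_iff]
    · rw [opL]; simp [Prod.ext_iff]
  exact ⟨fun _ => ⟨0, (this 0).2 rfl, rep_zero⟩, fun c' h => ⟨⟨0, Nat.one_pos⟩,
    (this c').1 h ▸ rep_zero⟩⟩

theorem inv_rho : ∀ (G : PG) (c c' : V), D c → D c' → Rep op G c → Rep op G c' →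
    c.1 + c.2.1 + 2 * c.2.2.1 = c'.1 + c'.2.1 + 2 * c'.2.2.1 := by
  intro G
  induction G with
  | mk m f ih =>
    intro c c' h h' r r'
    by_cases hm : m false = 0
    · have e : ∀ c, Rep op (mk m f) c → c = 0 := fun c r => (no_op false c).1 fun z hz => by
        obtain ⟨i, -⟩ := (r false).2 z hz
        exact absurd i.2 (by omega)
      rw [e c r, e c' r']
    · obtain ⟨z, h1, h2⟩ := (r false).1 ⟨0, Nat.pos_of_ne_zero hm⟩
      obtain ⟨z', h1', h2'⟩ := (r' false).1 ⟨0, Nat.pos_of_ne_zero hm⟩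
      have := ih _ _ z z' (hD _ _ _ h h1) (hD _ _ _ h' h1') h2 h2'
      obtain ⟨j, k, n, _⟩ := c
      obtain ⟨j', k', n', _⟩ := c'
      obtain rfl := h
      obtain rfl := h'
      rcases (opR _ _ _ _).1 h1 with ⟨_, rfl⟩ | ⟨_, rfl⟩ | ⟨_, rfl⟩ <;>
      rcases (opR _ _ _ _).1 h1' with ⟨_, rfl⟩ | ⟨_, rfl⟩ | ⟨_, rfl⟩ <;>
      · simp only at this ⊢
        omega

theorem inv_mu : ∀ (G : PG) (c c' : V), D c → D c' → Rep op G c → Rep op G c' →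
    c.1 + c.2.1 + 3 * c.2.2.1 ≤ c'.1 + c'.2.1 + 3 * c'.2.2.1 := by
  intro G
  induction G with
  | mk m f ih =>
    intro c c' h h' r r'
    have h0 := inv_rho _ c c' h h' r r'
    obtain ⟨j, k, n, _⟩ := c
    obtain ⟨j', k', n', _⟩ := c'
    obtain rfl := h
    obtain rfl := h'
    simp only at h0 ⊢
    by_cases hz : j' + k' + 3 * n' = 0
    · omega
    obtain ⟨z', h1', h3⟩ : ∃ z', op true (j', k', n', 0, 0) z' ∧
        z'.1 + z'.2.1 + 3 * z'.2.2.1 + 1 = j' + k' + 3 * n' := by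
      simp only [opL, or_and_right, exists_or, and_assoc, exists_and_left, exists_eq_left]
      omega
    obtain ⟨i, h2'⟩ := (r' true).2 z' h1'
    obtain ⟨z, h1, h2⟩ := (r true).1 i
    have := ih _ _ z z' (hD _ _ _ (D0 _ _ _) h1) (hD _ _ _ (D0 _ _ _) h1') h2 h2'
    rcases (opL _ _ _ _).1 h1 with ⟨_, rfl⟩ | ⟨_, rfl⟩ | ⟨_, rfl⟩ | ⟨_, rfl⟩ <;>
    · simp only at this ⊢
      omega

def ev : ℕ → V → Bool → Bool
  | 0, _, _ => true
  | k + 1, c, s => (M s).all (fun m => !leB m.1 c) ||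
      (M s).any fun m => leB m.1 c && !ev k (c - m.1 + m.2) (!s)

theorem win_ev : ∀ (k : ℕ) (G : PG) (c : V) (s : Bool), w c < k → Rep op G c →
    (Win true G s ↔ ev k c s = true)
  | 0, _, _, _, h, _ => absurd h (Nat.not_lt_zero _)
  | k + 1, mk n f, c, s, h, r => by
    simp only [Win, ev, Bool.or_eq_true, List.all_eq_true, List.any_eq_true, Bool.and_eq_true,
      Bool.not_eq_true', ← Bool.not_eq_true, leB_iff, and_true]
    refine or_congr ⟨fun h0 m hm h' => ?_, fun h0 => ?_⟩ ⟨?_, ?_⟩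
    · obtain ⟨i, -⟩ := (r s).2 _ ⟨m, hm, h', rfl⟩
      exact absurd i.2 (by omega)
    · by_contra hn
      obtain ⟨z, ⟨m, hm, h', -⟩, -⟩ := (r s).1 ⟨0, Nat.pos_of_ne_zero hn⟩
      exact h0 m hm h'
    · rintro ⟨i, hi⟩
      obtain ⟨z, h1, h2⟩ := (r s).1 i
      rw [win_ev k _ z _ (by have := hw _ _ _ h1; omega) h2] at hi
      obtain ⟨m, hm, h', rfl⟩ := h1
      exact ⟨m, hm, h', hi⟩
    · rintro ⟨m, hm, h', hi⟩
      have h1 : op s c (c - m.1 + m.2) := ⟨m, hm, h', rfl⟩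
      obtain ⟨i, h2⟩ := (r s).2 _ h1
      exact ⟨i, by rwa [win_ev k _ _ _ (by have := hw _ _ _ h1; omega) h2]⟩

def Z : List V := [(0, 0, 1, 0, 1), (0, 2, 0, 2, 0), (2, 1, 0, 1, 0), (0, 1, 0, 1, 0),
  (4, 0, 0, 0, 0), (2, 0, 0, 0, 0), (0, 0, 0, 0, 0)]

theorem Z1 : ∀ c ∈ Z, ∀ s, w c < 100 ∧ ev 100 c s = true := by decide +kernel

theorem Z2 : ∀ c ∈ Z, ∀ s, ∀ m ∈ M s, m.1 ≤ c → ∃ m' ∈ M (!s), m'.1 ≤ c - m.1 + m.2 ∧
    c - m.1 + m.2 - m'.1 + m'.2 ∈ Z := by decide +kernel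

theorem zeroZ (X : PG) (hX : Dicotic X) (c : V) (G : PG) (hc : c ∈ Z) (r : Rep op G c) :
    out true (add G X) = out true X := by
  have := zero_set (opt := op) (· ∈ Z) w hw
    (fun G c s hc r => (win_ev 100 G c s (Z1 c hc s).1 r).2 (Z1 c hc s).2)
    (by
      rintro c c' s hc ⟨m, hm, h, rfl⟩
      obtain ⟨m', hm', h', hz⟩ := Z2 c hc s m hm h
      exact ⟨_, ⟨m', hm', h', rfl⟩, hz⟩) X hX c G
  simp only [out, this _ hc r]

/-- An evilly normal pair `(A, K)` and a game in `K` that is invertible modulo the dicots. -/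
theorem result : ∃ (A K : Set PG) (G : PG), EvillyNormal A K ∧ G ∈ K ∧ Invertible G := by
  have ex := rep_exists (opt := op) w hw fun s c => opt_fin (M s) c
  have dic := rep_dicotic (opt := op) fun c => by rw [no_op, no_op]
  obtain ⟨G, hG⟩ := ex (0, 0, 1, 0, 0)
  obtain ⟨H, hH⟩ := ex (0, 0, 0, 0, 1)
  have key : ∀ X c, D c → Rep op X c →
      (X ∈ {X | ∃ c, D c ∧ Rep op X c ∧ 1 ≤ c.2.2.1} ↔ 1 ≤ c.2.2.1) := by
    refine fun X c h r => ⟨?_, fun h' => ⟨c, h, r, h'⟩⟩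
    rintro ⟨c', h', r', h1⟩
    have := inv_rho X c c' h h' r r'
    have := inv_mu X c c' h h' r r'
    have := inv_mu X c' c h' h r' r
    omega
  have Dadd : ∀ c d, D c → D d → D (c + d) := fun c d h h' => by
    simp only [D, Prod.snd_add] at *
    rw [h, h']
    rfl
  refine ⟨{X | ∃ c, D c ∧ Rep op X c}, {X | ∃ c, D c ∧ Rep op X c ∧ 1 ≤ c.2.2.1}, G,
    ⟨?_, ⟨?_, ?_⟩, ⟨?_, ?_, ?_⟩, ?_⟩, ⟨_, D0 _ _ _, hG, le_rfl⟩, dic G _ hG, H, dic H _ hH, ?_⟩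
  · rintro X ⟨c, -, r⟩
    exact dic X c r
  · rintro X ⟨c, h, r⟩ Y ⟨d, h', r'⟩
    exact ⟨c + d, Dadd c d h h', rep_add hs _ _ _ _ r r'⟩
  · rintro ⟨n, f⟩ ⟨c, h, r⟩ s Y ⟨i, rfl⟩
    obtain ⟨z, h1, h2⟩ := (r s).1 i
    exact ⟨z, hD _ _ _ h h1, h2⟩
  · rintro X ⟨c, h, r, -⟩
    exact ⟨c, h, r⟩
  · rintro X ⟨c, h, r, h1⟩
    simp only [out, win_iff _ X c _ h r, o, Prod.mk.injEq, eq_iff_iff, Bool.false_eq_true,
      Bool.true_eq_false, iff_true, iff_false, and_true, and_false, true_or, false_or]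
    omega
  · rintro X ⟨⟨c, h, r⟩, h1⟩
    have r' := rep_add hs _ _ _ _ r rep_star
    simp only [out, win_iff _ X c _ h r, win_iff _ _ _ _ (Dadd _ _ h (D0 _ _ _)) r', o, Prod.mk.injEq,
      eq_iff_iff, Bool.false_eq_true, Bool.true_eq_false, iff_true, iff_false, and_true,
      and_false, true_or, false_or, Prod.fst_add, Prod.snd_add]
    omega
  · rintro X ⟨c, h, r⟩ Y ⟨d, h', r'⟩
    rw [key X c h r, key Y d h' r', key _ _ (Dadd c d h h') (rep_add hs _ _ _ _ r r')]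
    simp only [Prod.fst_add, Prod.snd_add]
    omega
  · intro X hX
    rw [zeroZ X hX _ _ (by decide) (rep_add hs _ _ _ _ hG hH),
      zeroZ X hX _ _ (by decide) rep_zero]

end Pool.Agent.Results.MP_541980_co.InKernel
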